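import Mathlib

/-!
# The Lovász theta number of generalized Mycielskians

`thetaBar (M_r(G))` is a function of `thetaBar G`: it is the value of a semidefinite program on the
levels `0, …, r` in which only the number `s = thetaBar G` enters.
-/

set_option autoImplicit false

namespace Pool.Agent.Results.MP_8a180b_co.DeterminedByTheta

open scoped BigOperators RealInnerProductSpace

/-- `thetaBar G` of the problem: the infimum, over all dual orthonormal representations `u` of `G`
in any dimension and all unit vectors `c`, of `max_v 1 / ⟪c, u v⟫ ^ 2`. -/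
noncomputable def thetaBar {V : Type} (G : SimpleGraph V) : ℝ :=
  sInf {t : ℝ | ∃ (d : ℕ) (u : V → EuclideanSpace ℝ (Fin d)) (c : EuclideanSpace ℝ (Fin d)),
    (∀ v, ‖u v‖ = 1) ∧ (∀ v w, G.Adj v w → ⟪u v, u w⟫ = 0) ∧ ‖c‖ = 1 ∧ (∀ v, ⟪c, u v⟫ ≠ 0) ∧
    IsGreatest (Set.range fun v => 1 / ⟪c, u v⟫ ^ 2) t}

/-- Adjacency in the path `P_r` with a loop at `0`. -/
def pathAdj (i j : ℕ) : Prop := (i = 0 ∧ j = 0) ∨ i + 1 = j ∨ j + 1 = i

/-- The identification of all vertices `(v, r)` of `G × P_r`. -/
def proj {V : Type} {r : ℕ} (p : V × Fin (r + 1)) : Option (V × Fin r) :=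
  if h : (p.2 : ℕ) < r then some (p.1, ⟨p.2, h⟩) else none

/-- The generalized Mycielskian `M_r(G)`. -/
def genMyc {V : Type} (r : ℕ) (G : SimpleGraph V) : SimpleGraph (Option (V × Fin r)) where
  Adj x y := x ≠ y ∧ ∃ p q : V × Fin (r + 1), proj p = x ∧ proj q = y ∧
    G.Adj p.1 q.1 ∧ pathAdj p.2 q.2
  symm := ⟨by
    rintro x y ⟨h, p, q, h1, h2, h3, h4⟩
    refine ⟨h.symm, q, p, h2, h1, h3.symm, ?_⟩
    unfold pathAdj at h4 ⊢
    omega⟩
  loopless := ⟨fun x h => h.1 rfl⟩

/-! ### Positive semidefinite matrices -/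

open Matrix

section psd

variable {ι : Type} [Fintype ι]

theorem psd_iff {M : Matrix ι ι ℝ} : M.PosSemidef ↔
    (∀ v w, M v w = M w v) ∧ ∀ x : ι → ℝ, 0 ≤ ∑ v, ∑ w, x v * M v w * x w := by
  rw [posSemidef_iff_dotProduct_mulVec]
  have h1 : M.IsHermitian ↔ ∀ v w, M v w = M w v := by
    rw [IsHermitian.ext_iff]
    simp only [star_trivial]
    exact ⟨fun h v w => (h v w).symm, fun h v w => (h v w).symm⟩
  rw [h1]
  refine and_congr_right fun _ => ?_
  refine forall_congr' fun x => ?_
  have : star x ⬝ᵥ (M *ᵥ x) = ∑ v, ∑ w, x v * M v w * x w := by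
    simp only [dotProduct, mulVec, Pi.star_apply, star_trivial, Finset.mul_sum]
    exact Finset.sum_congr rfl fun v _ => Finset.sum_congr rfl fun w _ => by ring
  rw [this]

theorem psd_pair {D M : Matrix ι ι ℝ} (hD : D.PosSemidef) (hM : M.PosSemidef) :
    0 ≤ ∑ v, ∑ w, D v w * M v w := by
  have h := (psd_iff.1 (hD.hadamard hM)).2 1
  simpa [hadamard_apply] using h

/-- Diagonal dominance. -/
theorem psd_dd [DecidableEq ι] (e : ι → ι → ℝ) (he : ∀ v w, e v w = e w v) :
    (Matrix.of fun v w => (if v = w then ∑ u, |e v u| else 0) + e v w).PosSemidef := by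
  rw [psd_iff]
  refine ⟨fun v w => ?_, fun x => ?_⟩
  · simp only [of_apply, he v w]
    by_cases h : v = w
    · subst h; rfl
    · rw [if_neg h, if_neg (Ne.symm h)]
  · simp only [of_apply]
    have h1 : ∀ v w, x v * ((if v = w then ∑ u, |e v u| else 0) + e v w) * x w
        = (if v = w then x v * (∑ u, |e v u|) * x v else 0) + x v * e v w * x w := by
      intro v w
      by_cases h : v = w
      · subst h; simp only [if_true]; ring
      · simp only [if_neg h]; ring
    simp only [h1, Finset.sum_add_distrib, Finset.sum_ite_eq, Finset.mem_univ, if_true]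
    have h2 : ∑ v, x v * (∑ u, |e v u|) * x v = ∑ v, ∑ w, |e v w| * (x v) ^ 2 := by
      refine Finset.sum_congr rfl fun v _ => ?_
      rw [Finset.mul_sum, Finset.sum_mul]
      exact Finset.sum_congr rfl fun w _ => by ring
    have h3 : ∑ v, ∑ w, |e v w| * (x v) ^ 2 = ∑ v, ∑ w, |e v w| * (x w) ^ 2 := by
      rw [Finset.sum_comm]
      exact Finset.sum_congr rfl fun v _ => Finset.sum_congr rfl fun w _ => by rw [he]
    have h4 : ∑ v, x v * (∑ u, |e v u|) * x v
        = ∑ v, ∑ w, |e v w| * (((x v) ^ 2 + (x w) ^ 2) / 2) := by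
      have : ∑ v, ∑ w, |e v w| * (((x v) ^ 2 + (x w) ^ 2) / 2)
          = (∑ v, ∑ w, |e v w| * (x v) ^ 2 + ∑ v, ∑ w, |e v w| * (x w) ^ 2) / 2 := by
        rw [← Finset.sum_add_distrib, Finset.sum_div]
        refine Finset.sum_congr rfl fun v _ => ?_
        rw [← Finset.sum_add_distrib, Finset.sum_div]
        exact Finset.sum_congr rfl fun w _ => by ring
      rw [this, ← h3, h2]; ring
    rw [h4, ← Finset.sum_add_distrib]
    refine Finset.sum_nonneg fun v _ => ?_
    rw [← Finset.sum_add_distrib]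
    refine Finset.sum_nonneg fun w _ => ?_
    have h5 : -(|e v w| * (((x v) ^ 2 + (x w) ^ 2) / 2)) ≤ x v * e v w * x w := by
      have h6 : |x v * e v w * x w| ≤ |e v w| * (((x v) ^ 2 + (x w) ^ 2) / 2) := by
        rw [show x v * e v w * x w = e v w * (x v * x w) by ring, abs_mul]
        refine mul_le_mul_of_nonneg_left ?_ (abs_nonneg _)
        rw [abs_le]
        constructor <;> nlinarith [sq_nonneg (x v + x w), sq_nonneg (x v - x w)]
      exact (abs_le.1 h6).1
    linarith

/-- Partial contraction of two positive semidefinite matrices. -/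
theorem psd_part {κ : Type} [Fintype κ] {D : Matrix ι ι ℝ} {X : Matrix (ι × κ) (ι × κ) ℝ}
    (hD : D.PosSemidef) (hX : X.PosSemidef) :
    (Matrix.of fun i j : κ => ∑ v, ∑ w, D v w * X (v, i) (w, j)).PosSemidef := by
  have h := psd_iff.1 ((hD.submatrix (Prod.fst : ι × κ → ι)).hadamard hX)
  rw [psd_iff]
  refine ⟨fun i j => ?_, fun z => ?_⟩
  · simp only [of_apply]
    rw [Finset.sum_comm]
    refine Finset.sum_congr rfl fun v _ => Finset.sum_congr rfl fun w _ => ?_
    have := h.1 (w, i) (v, j)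
    simpa [hadamard_apply] using this
  · have h2 := h.2 (fun p => z p.2)
    simp only [hadamard_apply, submatrix_apply, Fintype.sum_prod_type] at h2
    simp only [of_apply]
    have : ∑ i, ∑ j, z i * (∑ v, ∑ w, D v w * X (v, i) (w, j)) * z j
        = ∑ v, ∑ i, ∑ w, ∑ j, z i * (D v w * X (v, i) (w, j)) * z j := by
      simp only [Finset.mul_sum, Finset.sum_mul]
      calc ∑ i, ∑ j, ∑ v, ∑ w, z i * (D v w * X (v, i) (w, j)) * z j
          = ∑ i, ∑ v, ∑ j, ∑ w, z i * (D v w * X (v, i) (w, j)) * z j :=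
            Finset.sum_congr rfl fun i _ => Finset.sum_comm
        _ = ∑ v, ∑ i, ∑ j, ∑ w, z i * (D v w * X (v, i) (w, j)) * z j := Finset.sum_comm
        _ = _ := Finset.sum_congr rfl fun v _ => Finset.sum_congr rfl fun i _ => Finset.sum_comm
    rw [this]
    exact h2

end psd

/-! ### The semidefinite program of `thetaBar` -/

section sdp

/-- The values `t` for which there is a positive semidefinite matrix with diagonal `≤ t - 1` and
entries `-1` on the edges. -/
def TS {V : Type} (G : SimpleGraph V) : Set ℝ :=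
  {t | ∃ M : Matrix V V ℝ, M.PosSemidef ∧ (∀ v, M v v ≤ t - 1) ∧ ∀ v w, G.Adj v w → M v w = -1}

theorem thetaBar_eq {V : Type} [Finite V] [Nonempty V] (G : SimpleGraph V) :
    thetaBar G = sInf (TS G) := by
  classical
  have := Fintype.ofFinite V
  unfold thetaBar
  congr 1
  ext t
  constructor
  · rintro ⟨d, u, c, h1, h2, h3, h4, h5⟩
    have key : ∀ v w, ⟪(⟪c, u v⟫)⁻¹ • u v - c, (⟪c, u w⟫)⁻¹ • u w - c⟫
        = (⟪c, u v⟫)⁻¹ * (⟪c, u w⟫)⁻¹ * ⟪u v, u w⟫ - 1 := by
      intro v w
      rw [inner_sub_left, inner_sub_right, inner_sub_right, real_inner_smul_left,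
        real_inner_smul_right, real_inner_smul_left, real_inner_smul_right,
        real_inner_self_eq_norm_sq c, h3, real_inner_comm c (u v)]
      have := h4 v
      have := h4 w
      field_simp
      ring
    refine ⟨gram ℝ (fun v => (⟪c, u v⟫)⁻¹ • u v - c), posSemidef_gram _ _, fun v => ?_,
      fun v w hvw => ?_⟩
    · have h6 : 1 / ⟪c, u v⟫ ^ 2 ≤ t := h5.2 ⟨v, rfl⟩
      rw [gram_apply, key, real_inner_self_eq_norm_sq, h1]
      have : (⟪c, u v⟫)⁻¹ * (⟪c, u v⟫)⁻¹ * 1 ^ 2 = 1 / ⟪c, u v⟫ ^ 2 := by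
        rw [one_pow, mul_one, ← mul_inv, ← sq, one_div]
      rw [this]
      linarith
    · rw [gram_apply, key, h2 v w hvw]
      ring
  · rintro ⟨M, hM, h1, h2⟩
    have ht1 : 1 ≤ t := by
      obtain ⟨v⟩ := ‹Nonempty V›
      have := hM.diag_nonneg (i := v)
      linarith [h1 v]
    have hM' : (M + diagonal fun v => t - 1 - M v v).PosSemidef :=
      hM.add (PosSemidef.diagonal fun v => by
        change (0 : ℝ) ≤ t - 1 - M v v
        linarith [h1 v])
    obtain ⟨m, x, hx⟩ := posSemidef_iff_eq_sum_vecMulVec.1 hM'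
    have hx' : ∀ v w, ∑ i, x i v * x i w = (M + diagonal fun v => t - 1 - M v v) v w := by
      intro v w
      rw [hx, Matrix.sum_apply]
      rfl
    set y : V → EuclideanSpace ℝ (Fin (m + 1)) := fun v =>
      WithLp.toLp 2 (Fin.cons 1 (fun i => x i v) : Fin (m + 1) → ℝ) with hy
    set c : EuclideanSpace ℝ (Fin (m + 1)) :=
      WithLp.toLp 2 (Fin.cons 1 (fun _ => 0) : Fin (m + 1) → ℝ) with hc
    have hyy : ∀ v w, ⟪y v, y w⟫ = 1 + (M + diagonal fun v => t - 1 - M v v) v w := by
      intro v w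
      rw [← hx', PiLp.inner_apply, Fin.sum_univ_succ]
      simp [hy, mul_comm]
    have hcy : ∀ v, ⟪c, y v⟫ = 1 := by
      intro v
      rw [PiLp.inner_apply, Fin.sum_univ_succ]
      simp [hy, hc]
    have hcc : ‖c‖ = 1 := by
      have : ‖c‖ ^ 2 = 1 := by
        rw [← real_inner_self_eq_norm_sq, PiLp.inner_apply, Fin.sum_univ_succ]
        simp [hc]
      nlinarith [norm_nonneg c]
    have hs : 0 < Real.sqrt t := Real.sqrt_pos.2 (by linarith)
    have hss : (Real.sqrt t)⁻¹ * (Real.sqrt t)⁻¹ = t⁻¹ := by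
      rw [← mul_inv, Real.mul_self_sqrt (by linarith)]
    have huu : ∀ v w, ⟪(Real.sqrt t)⁻¹ • y v, (Real.sqrt t)⁻¹ • y w⟫
        = t⁻¹ * (1 + (M + diagonal fun v => t - 1 - M v v) v w) := by
      intro v w
      rw [real_inner_smul_left, real_inner_smul_right, ← mul_assoc, hss, hyy]
    have hcu : ∀ v, ⟪c, (Real.sqrt t)⁻¹ • y v⟫ = (Real.sqrt t)⁻¹ := by
      intro v
      rw [real_inner_smul_right, hcy, mul_one]
    have hval : ∀ v, 1 / ⟪c, (Real.sqrt t)⁻¹ • y v⟫ ^ 2 = t := by
      intro v
      rw [hcu, sq, hss, one_div, inv_inv]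
    refine ⟨m + 1, fun v => (Real.sqrt t)⁻¹ • y v, c, fun v => ?_, fun v w hvw => ?_, hcc,
      fun v => ?_, ?_, ?_⟩
    · have : ‖(Real.sqrt t)⁻¹ • y v‖ ^ 2 = 1 := by
        rw [← real_inner_self_eq_norm_sq, huu, Matrix.add_apply, diagonal_apply_eq,
          show 1 + (M v v + (t - 1 - M v v)) = t by ring, inv_mul_cancel₀ (by linarith)]
      nlinarith [norm_nonneg ((Real.sqrt t)⁻¹ • y v)]
    · change ⟪(Real.sqrt t)⁻¹ • y v, (Real.sqrt t)⁻¹ • y w⟫ = 0
      rw [huu, Matrix.add_apply, diagonal_apply_ne _ hvw.ne, h2 v w hvw]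
      ring
    · change ⟪c, (Real.sqrt t)⁻¹ • y v⟫ ≠ 0
      rw [hcu]
      positivity
    · obtain ⟨v⟩ := ‹Nonempty V›
      exact ⟨v, hval v⟩
    · rintro _ ⟨v, rfl⟩
      exact (hval v).le

theorem one_le_of_mem {V : Type} [Nonempty V] {G : SimpleGraph V} {t : ℝ} (h : t ∈ TS G) :
    1 ≤ t := by
  obtain ⟨M, hM, h1, h2⟩ := h
  obtain ⟨v⟩ := ‹Nonempty V›
  have := hM.diag_nonneg (i := v)
  linarith [h1 v]

theorem two_le_of_mem {V : Type} [Finite V] {G : SimpleGraph V} {a b : V} (hab : G.Adj a b)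
    {t : ℝ} (h : t ∈ TS G) : 2 ≤ t := by
  classical
  have := Fintype.ofFinite V
  obtain ⟨M, hM, h1, h2⟩ := h
  have h3 := (hM.submatrix ![a, b])
  have h4 := (psd_iff.1 h3).2 ![1, 1]
  simp [Fin.sum_univ_two] at h4
  have h5 := h2 a b hab
  have h6 := h2 b a hab.symm
  rw [h5, h6] at h4
  linarith [h1 a, h1 b]

theorem bdd {V : Type} [Nonempty V] (G : SimpleGraph V) : BddBelow (TS G) :=
  ⟨1, fun _ h => one_le_of_mem h⟩

theorem nonempty {V : Type} [Finite V] (G : SimpleGraph V) : (TS G).Nonempty := by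
  classical
  have := Fintype.ofFinite V
  refine ⟨(Fintype.card V : ℝ) + 1, _, psd_dd (fun v w => if v = w then 0 else (-1 : ℝ))
    (fun v w => by simp only [eq_comm]), fun v => ?_, fun v w hvw => ?_⟩
  · simp only [of_apply, if_true, add_zero]
    have : ∑ u, |(if v = u then (0 : ℝ) else -1)| ≤ ∑ u : V, (1 : ℝ) :=
      Finset.sum_le_sum fun u _ => by split_ifs <;> simp
    simp at this ⊢
    exact this
  · simp [hvw.ne]

theorem edgeless {V : Type} [Finite V] [Nonempty V] {G : SimpleGraph V}
    (h : ∀ v w, ¬ G.Adj v w) : sInf (TS G) = 1 := by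
  refine le_antisymm (csInf_le (bdd G) ⟨0, PosSemidef.zero, fun v => by simp, fun v w hvw =>
    absurd hvw (h v w)⟩) (le_csInf (nonempty G) fun t ht => one_le_of_mem ht)

theorem two_le {V : Type} [Finite V] {G : SimpleGraph V} {a b : V} (hab : G.Adj a b) :
    2 ≤ sInf (TS G) :=
  le_csInf (nonempty G) fun _ ht => two_le_of_mem hab ht

/-- Weak duality. -/
theorem weak {V : Type} [Fintype V] [Nonempty V] {G : SimpleGraph V} {D : Matrix V V ℝ}
    (hD : D.PosSemidef) (h0 : ∀ v w, v ≠ w → ¬ G.Adj v w → D v w = 0) :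
    ∑ v, ∑ w, D v w ≤ sInf (TS G) * ∑ v, D v v := by
  classical
  have key : ∀ t ∈ TS G, ∑ v, ∑ w, D v w ≤ t * ∑ v, D v v := by
    rintro t ⟨M, hM, h1, h2⟩
    have h3 := psd_pair hD hM
    have h4 : ∑ v, ∑ w, D v w * M v w ≤ ∑ v, ∑ w, ((if v = w then t * D v v else 0) - D v w) := by
      refine Finset.sum_le_sum fun v _ => Finset.sum_le_sum fun w _ => ?_
      by_cases hvw : v = w
      · subst hvw
        rw [if_pos rfl]
        nlinarith [mul_le_mul_of_nonneg_left (h1 v) (hD.diag_nonneg (i := v))]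
      · rw [if_neg hvw]
        by_cases ha : G.Adj v w
        · rw [h2 v w ha]; linarith
        · rw [h0 v w hvw ha]; linarith
    simp only [Finset.sum_sub_distrib, Finset.sum_ite_eq, Finset.mem_univ, if_true,
      ← Finset.mul_sum] at h4
    linarith
  have hS : 0 ≤ ∑ v, D v v := Finset.sum_nonneg fun v _ => hD.diag_nonneg
  rcases hS.eq_or_lt with h | h
  · obtain ⟨t, ht⟩ := nonempty G
    have := key t ht
    rw [← h] at this ⊢
    simpa using this
  · rw [← div_le_iff₀ h]
    exact le_csInf (nonempty G) fun t ht => by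
      rw [div_le_iff₀ h]; exact key t ht

/-- Strong duality. -/
theorem strong {V : Type} [Fintype V] [Nonempty V] (G : SimpleGraph V) :
    ∃ D : Matrix V V ℝ, D.PosSemidef ∧ (∀ v w, v ≠ w → ¬ G.Adj v w → D v w = 0) ∧
      ∑ v, D v v = 1 ∧ ∑ v, ∑ w, D v w = sInf (TS G) := by
  classical
  set s := sInf (TS G) with hs
  let a : V → V → ℝ := fun v w => if G.Adj v w then 1 else 0
  have a1 : ∀ {v w}, G.Adj v w → a v w = 1 := fun h => if_pos h
  have a0 : ∀ {v w}, ¬ G.Adj v w → a v w = 0 := fun h => if_neg h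
  have an : ∀ v w, 0 ≤ a v w := fun v w => by
    by_cases h : G.Adj v w
    · rw [a1 h]; norm_num
    · rw [a0 h]
  let K : Set (V → V → ℝ) := {Y | ∃ M : Matrix V V ℝ, M.PosSemidef ∧
    ∀ v, M v v + ∑ w, a v w * |Y v w - M v w| < Y v v}
  have hopen : IsOpen K := by
    have : K = ⋃ M : {M : Matrix V V ℝ // M.PosSemidef}, ⋂ v,
        {Y : V → V → ℝ | M.1 v v + ∑ w, a v w * |Y v w - M.1 v w| < Y v v} := by
      ext Y
      simp only [K, Set.mem_ofPred_eq, Set.mem_iUnion, Set.mem_iInter, Subtype.exists,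
        exists_prop]
    rw [this]
    refine isOpen_iUnion fun M => isOpen_iInter_of_finite fun v => isOpen_lt ?_ ?_
    · fun_prop
    · fun_prop
  have hconv : Convex ℝ K := by
    rw [convex_iff_forall_pos]
    rintro Y1 ⟨M1, hM1, h1⟩ Y2 ⟨M2, hM2, h2⟩ p q hp hq hpq
    refine ⟨p • M1 + q • M2, (hM1.smul hp.le).add (hM2.smul hq.le), fun v => ?_⟩
    have h3 : ∑ w, a v w * |(p • Y1 + q • Y2) v w - (p • M1 + q • M2) v w|
        ≤ p * ∑ w, a v w * |Y1 v w - M1 v w| + q * ∑ w, a v w * |Y2 v w - M2 v w| := by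
      rw [Finset.mul_sum, Finset.mul_sum, ← Finset.sum_add_distrib]
      refine Finset.sum_le_sum fun w _ => ?_
      have : |(p • Y1 + q • Y2) v w - (p • M1 + q • M2) v w|
          ≤ p * |Y1 v w - M1 v w| + q * |Y2 v w - M2 v w| := by
        have : (p • Y1 + q • Y2) v w - (p • M1 + q • M2) v w
            = p * (Y1 v w - M1 v w) + q * (Y2 v w - M2 v w) := by
          simp only [Pi.add_apply, Pi.smul_apply, Matrix.add_apply, Matrix.smul_apply, smul_eq_mul]
          ring
        rw [this]
        refine (abs_add_le _ _).trans ?_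
        rw [abs_mul, abs_mul, abs_of_pos hp, abs_of_pos hq]
      calc _ ≤ a v w * (p * |Y1 v w - M1 v w| + q * |Y2 v w - M2 v w|) :=
            mul_le_mul_of_nonneg_left this (an v w)
        _ = _ := by ring
    have h4 := mul_lt_mul_of_pos_left (h1 v) hp
    have h5 := mul_lt_mul_of_pos_left (h2 v) hq
    simp only [Pi.add_apply, Pi.smul_apply, Matrix.add_apply, Matrix.smul_apply, smul_eq_mul]
      at h3 ⊢
    linarith
  let P : V → V → ℝ := fun v w => (if v = w then s else 0) - 1
  have hP : P ∉ K := by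
    rintro ⟨M, hM, h1⟩
    have hsym := (psd_iff.1 hM).1
    have he := psd_dd (fun v w => a v w * (-1 - M v w)) (fun v w => by
      have : a v w = a w v := by simp only [a, G.adj_comm]
      rw [this, hsym v w])
    set E := Matrix.of fun v w => (if v = w then ∑ u, |(fun v w => a v w * (-1 - M v w)) v u|
      else 0) + (fun v w => a v w * (-1 - M v w)) v w with hE
    have hd : ∀ v, (M + E) v v < s - 1 := by
      intro v
      have h2 := h1 v
      have h3 : ∀ w, a v w * |P v w - M v w| = |a v w * (-1 - M v w)| := by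
        intro w
        rw [abs_mul, abs_of_nonneg (an v w)]
        by_cases h : G.Adj v w
        · simp only [P, if_neg h.ne, zero_sub]
        · rw [a0 h, zero_mul, zero_mul]
      simp only [h3] at h2
      have h4 : a v v = 0 := a0 (G.loopless.irrefl v)
      simp only [Matrix.add_apply, hE, of_apply, if_true, h4, zero_mul, add_zero]
      simpa [P] using h2
    obtain ⟨v0, hv0⟩ := Finite.exists_max fun v => (M + E) v v
    have h5 : s ≤ (M + E) v0 v0 + 1 := by
      refine csInf_le (bdd G) ⟨M + E, hM.add he, fun v => ?_, fun v w hvw => ?_⟩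
      · have := hv0 v
        linarith
      · simp only [Matrix.add_apply, hE, of_apply, if_neg hvw.ne, a1 hvw]
        ring
    have := hd v0
    linarith
  obtain ⟨f, hf⟩ := geometric_hahn_banach_open_point hconv hopen hP
  set c : V → V → ℝ := fun v w => f (Pi.single v (Pi.single w 1)) with hc
  have hfc : ∀ Y : V → V → ℝ, f Y = ∑ v, ∑ w, Y v w * c v w := by
    intro Y
    have : Y = ∑ v, ∑ w, Y v w • (Pi.single v (Pi.single w 1) : V → V → ℝ) := by
      ext x y
      simp only [Finset.sum_apply, Pi.smul_apply, Pi.single_apply, smul_eq_mul]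
      simp [Pi.single_apply, ite_apply]
    conv_lhs => rw [this]
    simp only [map_sum, map_smul, smul_eq_mul, hc]
  have hcone : ∀ Y ∈ K, ∀ l : ℝ, 0 < l → l • Y ∈ K := by
    rintro Y ⟨M, hM, h1⟩ l hl
    refine ⟨l • M, hM.smul hl.le, fun v => ?_⟩
    have h2 := mul_lt_mul_of_pos_left (h1 v) hl
    have h3 : ∑ w, a v w * |(l • Y) v w - (l • M) v w| = l * ∑ w, a v w * |Y v w - M v w| := by
      rw [Finset.mul_sum]
      refine Finset.sum_congr rfl fun w _ => ?_
      simp only [Pi.smul_apply, Matrix.smul_apply, smul_eq_mul]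
      rw [← mul_sub, abs_mul, abs_of_pos hl]
      ring
    rw [h3]
    simp only [Pi.smul_apply, Matrix.smul_apply, smul_eq_mul]
    linarith
  have hneg : ∀ Y ∈ K, f Y ≤ 0 := by
    intro Y hY
    by_contra hcon
    push Not at hcon
    have h1 := hf _ (hcone Y hY ((|f P| + 1) / f Y) (by positivity))
    rw [map_smul, smul_eq_mul, div_mul_cancel₀ _ hcon.ne'] at h1
    linarith [le_abs_self (f P)]
  let Y0 : V → V → ℝ := fun v w => if v = w then 1 else 0
  have hMY : ∀ M : Matrix V V ℝ, M.PosSemidef → ∀ e : ℝ, 0 < e → ∀ Z : V → V → ℝ,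
      (∀ v w, G.Adj v w ∨ v = w → Z v w = 0) → (fun v w => M v w + e * Y0 v w + Z v w) ∈ K := by
    intro M hM e he Z hZ
    refine ⟨M, hM, fun v => ?_⟩
    have : ∑ w, a v w * |M v w + e * Y0 v w + Z v w - M v w| = 0 := by
      refine Finset.sum_eq_zero fun w _ => ?_
      by_cases h : G.Adj v w
      · simp [Y0, h.ne, hZ v w (Or.inl h)]
      · rw [a0 h, zero_mul]
    rw [this]
    simp only [Y0, if_true, hZ v v (Or.inr rfl)]
    linarith
  have hY0 : Y0 ∈ K := by
    have := hMY 0 PosSemidef.zero 1 one_pos 0 (fun _ _ _ => rfl)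
    convert this using 3
    simp
  have hPnn : 0 ≤ f P := by
    by_contra hcon
    push Not at hcon
    have h1 := hf _ hY0
    have h2 : 0 < f P / f Y0 := div_pos_of_neg_of_neg hcon (h1.trans hcon)
    have h3 := hf _ (hcone Y0 hY0 _ h2)
    rw [map_smul, smul_eq_mul, div_mul_cancel₀ _ (h1.trans hcon).ne] at h3
    exact lt_irrefl _ h3
  have hM : ∀ M : Matrix V V ℝ, M.PosSemidef → ∑ v, ∑ w, M v w * c v w ≤ 0 := by
    intro M hM
    rw [← hfc]
    refine le_of_forall_pos_le_add fun e he => ?_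
    have h0 := hneg _ hY0
    have h1 : 0 < e / (1 - f Y0) := div_pos he (by linarith)
    have h2 := hneg _ (hMY M hM _ h1 0 (fun _ _ _ => rfl))
    have h3 : (fun v w => M v w + e / (1 - f Y0) * Y0 v w + (0 : V → V → ℝ) v w)
        = (fun v w => M v w) + (e / (1 - f Y0)) • Y0 := by
      ext v w
      simp
    rw [h3, map_add, map_smul, smul_eq_mul] at h2
    have h4 : e / (1 - f Y0) * (-f Y0) ≤ e := by
      rw [div_mul_eq_mul_div, div_le_iff₀ (by linarith)]
      nlinarith
    linarith
  have hnon : ∀ v w, v ≠ w → ¬ G.Adj v w → c v w = 0 := by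
    intro v w hvw ha
    by_contra hcon
    have h1 := hneg _ (hMY 0 PosSemidef.zero 1 one_pos
      (((1 - f Y0) / c v w) • (Pi.single v (Pi.single w 1) : V → V → ℝ)) (fun x y hxy => by
        simp only [Pi.smul_apply, smul_eq_mul, mul_eq_zero]
        right
        by_cases hx : x = v
        · subst hx
          rw [Pi.single_eq_same]
          have : y ≠ w := by
            rintro rfl
            rcases hxy with h | h
            · exact ha h
            · exact hvw h
          rw [Pi.single_eq_of_ne this]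
        · rw [Pi.single_eq_of_ne hx]; rfl))
    have h3 : (fun x y => (0 : Matrix V V ℝ) x y + 1 * Y0 x y
        + (((1 - f Y0) / c v w) • (Pi.single v (Pi.single w 1) : V → V → ℝ)) x y)
        = Y0 + ((1 - f Y0) / c v w) • (Pi.single v (Pi.single w 1) : V → V → ℝ) := by
      ext x y
      simp
    rw [h3, map_add, map_smul, smul_eq_mul] at h1
    change f Y0 + (1 - f Y0) / c v w * c v w ≤ 0 at h1
    rw [div_mul_cancel₀ _ hcon] at h1
    linarith
  let D : Matrix V V ℝ := Matrix.of fun v w => -(c v w + c w v) / 2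
  have hswap : ∑ v, ∑ w, c w v = ∑ v, ∑ w, c v w := Finset.sum_comm
  have hDsum : ∑ v, ∑ w, D v w = - ∑ v, ∑ w, c v w := by
    have : ∑ v, ∑ w, D v w = -(∑ v, ∑ w, c v w + ∑ v, ∑ w, c w v) / 2 := by
      simp only [D, of_apply, ← Finset.sum_div, ← Finset.sum_add_distrib, ← Finset.sum_neg_distrib]
    rw [this, hswap]; ring
  have hDtr : ∑ v, D v v = - ∑ v, c v v := by
    rw [← Finset.sum_neg_distrib]
    refine Finset.sum_congr rfl fun v _ => ?_
    simp only [D, of_apply]; ring
  have hDpsd : D.PosSemidef := by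
    rw [psd_iff]
    refine ⟨fun v w => ?_, fun x => ?_⟩
    · simp only [D, of_apply]; ring
    · have h1 := hM _ (posSemidef_vecMulVec_self_star x)
      have h2 : ∑ v, ∑ w, x v * D v w * x w
          = -((∑ v, ∑ w, x v * c v w * x w) + ∑ v, ∑ w, x v * c w v * x w) / 2 := by
        simp only [← Finset.sum_add_distrib, ← Finset.sum_neg_distrib, Finset.sum_div]
        refine Finset.sum_congr rfl fun v _ => Finset.sum_congr rfl fun w _ => ?_
        simp only [D, of_apply]; ring
      have h3 : ∑ v, ∑ w, x v * c w v * x w = ∑ v, ∑ w, x v * c v w * x w := by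
        rw [Finset.sum_comm]
        refine Finset.sum_congr rfl fun v _ => Finset.sum_congr rfl fun w _ => by ring
      have h4 : ∑ v, ∑ w, vecMulVec x (star x) v w * c v w = ∑ v, ∑ w, x v * c v w * x w := by
        refine Finset.sum_congr rfl fun v _ => Finset.sum_congr rfl fun w _ => ?_
        simp only [vecMulVec_apply, star_trivial]; ring
      rw [h2, h3]
      rw [h4] at h1
      linarith
  have hDsupp : ∀ v w, v ≠ w → ¬ G.Adj v w → D v w = 0 := by
    intro v w hvw ha
    simp only [D, of_apply]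
    rw [hnon v w hvw ha, hnon w v hvw.symm (fun h => ha h.symm)]
    ring
  have hfP : f P = s * (- ∑ v, D v v) + ∑ v, ∑ w, D v w := by
    rw [hfc, hDsum, hDtr, neg_neg]
    have : ∀ v w, P v w * c v w = (if v = w then s * c v v else 0) - c v w := by
      intro v w
      by_cases h : v = w
      · subst h; simp only [P, if_true]; ring
      · simp only [P, if_neg h]; ring
    simp only [this, Finset.sum_sub_distrib, Finset.sum_ite_eq, Finset.mem_univ, if_true,
      ← Finset.mul_sum]
    ring
  have hweak := weak hDpsd hDsupp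
  have htr : 0 < ∑ v, D v v := by
    have h0 : 0 ≤ ∑ v, D v v := Finset.sum_nonneg fun v _ => hDpsd.diag_nonneg
    refine lt_of_le_of_ne h0 fun h => ?_
    have h1 : f Y0 = 0 := by
      rw [hfc]
      have : ∀ v w, Y0 v w * c v w = if v = w then c v v else 0 := by
        intro v w
        by_cases h : v = w
        · subst h; simp only [Y0, if_true, one_mul]
        · simp only [Y0, if_neg h, zero_mul]
      simp only [this, Finset.sum_ite_eq, Finset.mem_univ, if_true]
      linarith
    have h2 := hf _ hY0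
    rw [h1, hfP, ← h] at h2
    rw [← h] at hweak
    linarith
  refine ⟨(∑ v, D v v)⁻¹ • D, hDpsd.smul (inv_nonneg.2 htr.le), fun v w hvw ha => ?_, ?_, ?_⟩
  · rw [Matrix.smul_apply, hDsupp v w hvw ha, smul_zero]
  · simp only [Matrix.smul_apply, smul_eq_mul, ← Finset.mul_sum]
    exact inv_mul_cancel₀ htr.ne'
  · simp only [Matrix.smul_apply, smul_eq_mul, ← Finset.mul_sum]
    rw [inv_mul_eq_iff_eq_mul₀ htr.ne']
    refine le_antisymm ?_ ?_
    · rw [mul_comm]; exact hweak
    · rw [hfP] at hPnn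
      linarith

end sdp

/-! ### The level program -/

/-- The semidefinite program on the levels: `t` is feasible if there are positive semidefinite
`(r+1) × (r+1)` matrices `A`, `B` with `B_rr = 0`, `A_ij - B_ij = -1` on the edges of `P_r` and
`A_ii + (s - 1) B_ii ≤ t - 1`. -/
def Lev (r : ℕ) (s : ℝ) : Set ℝ :=
  {t | ∃ A B : Matrix (Fin (r + 1)) (Fin (r + 1)) ℝ, A.PosSemidef ∧ B.PosSemidef ∧
    B (Fin.last r) (Fin.last r) = 0 ∧ (∀ i j : Fin (r + 1), pathAdj i j → A i j - B i j = -1) ∧
    ∀ i, A i i + (s - 1) * B i i ≤ t - 1}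

theorem proj_last {V : Type} {r : ℕ} (v : V) : proj (v, Fin.last r) = none := by
  simp [proj]

theorem adj_proj {V : Type} {r : ℕ} (hr : 1 ≤ r) {G : SimpleGraph V} {v w : V}
    (h : G.Adj v w) {i j : Fin (r + 1)} (hij : pathAdj i j) :
    (genMyc r G).Adj (proj (v, i)) (proj (w, j)) := by
  refine ⟨?_, (v, i), (w, j), rfl, rfl, h, hij⟩
  unfold proj
  intro he
  unfold pathAdj at hij
  have hi := i.2
  have hj := j.2
  by_cases h1 : (i : ℕ) < r <;> by_cases h2 : (j : ℕ) < r
  · rw [dif_pos h1, dif_pos h2] at he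
    have h3 := (Prod.mk.inj (Option.some.inj he)).1
    exact h.ne h3
  · rw [dif_pos h1, dif_neg h2] at he
    exact Option.some_ne_none _ he
  · rw [dif_neg h1, dif_pos h2] at he
    exact Option.some_ne_none _ he.symm
  · omega

theorem lower {V : Type} [Fintype V] [Nonempty V] {G : SimpleGraph V} (hs : 2 ≤ sInf (TS G))
    {r : ℕ} (hr : 1 ≤ r) : TS (genMyc r G) ⊆ Lev r (sInf (TS G)) := by
  classical
  rintro t ⟨M, hM, h1, h2⟩
  obtain ⟨D, hD, hD0, hD1, hD2⟩ := strong G
  set s := sInf (TS G) with hsdef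
  let X : Matrix (V × Fin (r + 1)) (V × Fin (r + 1)) ℝ := M.submatrix proj proj
  have hX : X.PosSemidef := hM.submatrix _
  let R : Matrix V V ℝ := s • diagonal (fun v => D v v) - D
  have hRapp : ∀ v w, R v w = (if v = w then s * D v v else 0) - D v w := by
    intro v w
    simp only [R, Matrix.sub_apply, Matrix.smul_apply, diagonal_apply, smul_eq_mul]
    by_cases h : v = w
    · simp [h]
    · simp [h]
  have hR : R.PosSemidef := by
    rw [psd_iff]
    have hsym := (psd_iff.1 hD).1
    refine ⟨fun v w => ?_, fun x => ?_⟩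
    · rw [hRapp, hRapp, hsym v w]
      by_cases h : v = w
      · subst h; rfl
      · rw [if_neg h, if_neg (Ne.symm h)]
    · have hw := weak (G := G) ((posSemidef_vecMulVec_self_star x).hadamard hD)
        (fun v w hvw ha => by rw [hadamard_apply, hD0 v w hvw ha, mul_zero])
      simp only [hadamard_apply, vecMulVec_apply, star_trivial] at hw
      have h3 : ∀ v w, x v * R v w * x w
          = (if v = w then s * (x v * x v * D v v) else 0) - x v * x w * D v w := by
        intro v w
        rw [hRapp]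
        by_cases h : v = w
        · subst h; simp only [if_true]; ring
        · simp only [if_neg h]; ring
      simp only [h3, Finset.sum_sub_distrib, Finset.sum_ite_eq, Finset.mem_univ, if_true,
        ← Finset.mul_sum]
      linarith
  let T : Matrix (Fin (r + 1)) (Fin (r + 1)) ℝ :=
    Matrix.of fun i j => ∑ v, ∑ w, D v w * X (v, i) (w, j)
  have hT : T.PosSemidef := psd_part hD hX
  let S : Matrix (Fin (r + 1)) (Fin (r + 1)) ℝ :=
    Matrix.of fun i j => ∑ v, ∑ w, R v w * X (v, i) (w, j)
  have hS : S.PosSemidef := psd_part hR hX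
  let U : Fin (r + 1) → Fin (r + 1) → ℝ := fun i j => ∑ v, D v v * X (v, i) (v, j)
  have hSU : ∀ i j, S i j = s * U i j - T i j := by
    intro i j
    simp only [S, T, U, of_apply, hRapp, sub_mul, ite_mul, zero_mul, Finset.sum_sub_distrib,
      Finset.sum_ite_eq, Finset.mem_univ, if_true, Finset.mul_sum]
    congr 1
    exact Finset.sum_congr rfl fun v _ => by ring
  have hs1 : 0 < s - 1 := by linarith
  have hs0 : 0 < s := by linarith
  refine ⟨(1 / s) • T, (1 / (s * (s - 1))) • S, hT.smul (by positivity), hS.smul (by positivity),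
    ?_, fun i j hij => ?_, fun i => ?_⟩
  · rw [Matrix.smul_apply, hSU, smul_eq_mul]
    have hX0 : ∀ v w, X (v, Fin.last r) (w, Fin.last r) = M none none := by
      intro v w
      simp only [X, submatrix_apply, proj_last]
    have h3 : U (Fin.last r) (Fin.last r) = M none none := by
      simp only [U, hX0, ← Finset.sum_mul, hD1, one_mul]
    have h4 : T (Fin.last r) (Fin.last r) = s * M none none := by
      simp only [T, of_apply, hX0, ← Finset.sum_mul, hD2]
    rw [h3, h4, sub_self, mul_zero]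
  · have h3 : T i j = U i j + 1 - s := by
      have h4 : ∀ v w, D v w * X (v, i) (w, j)
          = (if v = w then D v v * X (v, i) (v, j) + D v v else 0) - D v w := by
        intro v w
        by_cases h : v = w
        · subst h; rw [if_pos rfl]; ring
        · rw [if_neg h]
          by_cases ha : G.Adj v w
          · have : X (v, i) (w, j) = -1 := h2 _ _ (adj_proj hr ha hij)
            rw [this]; ring
          · rw [hD0 v w h ha]; ring
      have h5 : T i j = ∑ v, ∑ w,
          ((if v = w then D v v * X (v, i) (v, j) + D v v else 0) - D v w) :=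
        Finset.sum_congr rfl fun v _ => Finset.sum_congr rfl fun w _ => h4 v w
      rw [h5]
      simp only [U, Finset.sum_sub_distrib, Finset.sum_ite_eq, Finset.mem_univ,
        if_true, Finset.sum_add_distrib, hD1, hD2]
    rw [Matrix.smul_apply, Matrix.smul_apply, hSU, smul_eq_mul, smul_eq_mul, h3]
    field_simp
    ring
  · rw [Matrix.smul_apply, Matrix.smul_apply, hSU, smul_eq_mul, smul_eq_mul]
    have h3 : 1 / s * T i i + (s - 1) * (1 / (s * (s - 1)) * (s * U i i - T i i)) = U i i := by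
      field_simp
      ring
    rw [h3]
    calc U i i ≤ ∑ v, D v v * (t - 1) :=
          Finset.sum_le_sum fun v _ => mul_le_mul_of_nonneg_left (h1 _) hD.diag_nonneg
      _ = t - 1 := by rw [← Finset.sum_mul, hD1, one_mul]

theorem psd_zero {n : ℕ} {B : Matrix (Fin n) (Fin n) ℝ} (hB : B.PosSemidef) {j : Fin n}
    (h : B j j = 0) (i : Fin n) : B i j = 0 ∧ B j i = 0 := by
  have hsym := (psd_iff.1 hB).1
  have h1 := (psd_iff.1 (hB.submatrix ![i, j])).2 ![B i j, -(B i i + 1) / 2]
  simp [Fin.sum_univ_two, h, hsym j i] at h1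
  have h2 : B i j = 0 := by
    have : (B i j) ^ 2 ≤ 0 := by nlinarith
    exact pow_eq_zero_iff (two_ne_zero) |>.1 (le_antisymm this (sq_nonneg _))
  exact ⟨h2, by rw [hsym j i, h2]⟩

theorem upper {V : Type} [Fintype V] [Nonempty V] {G : SimpleGraph V} {r : ℕ} {t : ℝ}
    (ht : t ∈ Lev r (sInf (TS G))) {e : ℝ} (he : 0 < e) : t + e ∈ TS (genMyc r G) := by
  classical
  obtain ⟨A, B, hA, hB, hBr, hAB, hdiag⟩ := ht
  obtain ⟨v0⟩ := id ‹Nonempty V›
  have hb : ∀ i, B i i ≤ ∑ j, B j j := fun i =>
    Finset.single_le_sum (f := fun j => B j j) (fun j _ => hB.diag_nonneg) (Finset.mem_univ i)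
  have hb0 : 0 ≤ ∑ j, B j j := Finset.sum_nonneg fun j _ => hB.diag_nonneg
  obtain ⟨t', ⟨Y, hY, hY1, hY2⟩, ht'⟩ := exists_lt_of_csInf_lt (nonempty G)
    (show sInf (TS G) < sInf (TS G) + e / (1 + ∑ j, B j j) by
      have : 0 < e / (1 + ∑ j, B j j) := by positivity
      linarith)
  let lev : Option (V × Fin r) → Fin (r + 1) := fun x => x.elim (Fin.last r) fun p => p.2.castSucc
  let base : Option (V × Fin r) → V := fun x => x.elim v0 Prod.fst
  have hlev : ∀ p : V × Fin (r + 1), lev (proj p) = p.2 := by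
    rintro ⟨v, i⟩
    unfold proj
    by_cases h : (i : ℕ) < r
    · rw [dif_pos h]
      rfl
    · rw [dif_neg h]
      change Fin.last r = i
      ext
      have := i.2
      simp only [Fin.val_last]
      omega
  have hbase : ∀ p : V × Fin (r + 1), p.2 ≠ Fin.last r → base (proj p) = p.1 := by
    rintro ⟨v, i⟩ hi
    have h : (i : ℕ) < r := by
      by_contra h
      apply hi
      ext
      have := i.2
      simp only [Fin.val_last]
      omega
    unfold proj
    simp only [h, dif_pos, base, Option.elim]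
  refine ⟨A.submatrix lev lev + B.submatrix lev lev ⊙ Y.submatrix base base,
    (hA.submatrix _).add ((hB.submatrix _).hadamard (hY.submatrix _)), fun x => ?_,
    fun x y hxy => ?_⟩
  · simp only [Matrix.add_apply, hadamard_apply, submatrix_apply]
    have h1 := hdiag (lev x)
    have h2 := mul_le_mul_of_nonneg_left (hY1 (base x)) (hB.diag_nonneg (i := lev x))
    have h3 := mul_le_mul_of_nonneg_left ht'.le (hB.diag_nonneg (i := lev x))
    have h4 : B (lev x) (lev x) * (e / (1 + ∑ j, B j j)) ≤ e := by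
      rw [mul_div_assoc', div_le_iff₀ (by linarith)]
      nlinarith [hb (lev x)]
    nlinarith
  · obtain ⟨-, p, q, rfl, rfl, ha, hp⟩ := hxy
    simp only [Matrix.add_apply, hadamard_apply, submatrix_apply, hlev]
    have h1 := hAB _ _ hp
    by_cases h2 : p.2 = Fin.last r
    · have h3 := (psd_zero hB hBr q.2).2
      rw [h2] at h1 ⊢
      rw [h3] at h1 ⊢
      linarith
    · by_cases h4 : q.2 = Fin.last r
      · have h3 := (psd_zero hB hBr p.2).1
        rw [h4] at h1 ⊢
        rw [h3] at h1 ⊢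
        linarith
      · rw [hbase p h2, hbase q h4, hY2 _ _ ha]
        linarith

theorem main {V : Type} [Finite V] [Nonempty V] {G : SimpleGraph V} {a b : V} (hab : G.Adj a b)
    {r : ℕ} (hr : 1 ≤ r) : sInf (TS (genMyc r G)) = sInf (Lev r (sInf (TS G))) := by
  have := Fintype.ofFinite V
  have hs := two_le hab
  have hlow := lower hs hr
  have hne : (TS (genMyc r G)).Nonempty := nonempty _
  have hbdd : BddBelow (Lev r (sInf (TS G))) := by
    refine ⟨1, ?_⟩
    rintro t ⟨A, B, hA, hB, -, -, h⟩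
    have h1 := h 0
    have h2 := hA.diag_nonneg (i := 0)
    have h3 := mul_nonneg (show 0 ≤ sInf (TS G) - 1 by linarith) (hB.diag_nonneg (i := 0))
    linarith
  refine le_antisymm (le_csInf (hne.mono hlow) fun t ht => ?_) (csInf_le_csInf hbdd hne hlow)
  exact le_of_forall_pos_le_add fun e he => csInf_le (bdd _) (upper ht he)

/-- **Main result.** For every `r ≥ 1` the number `thetaBar (M_r(G))` is determined by `thetaBar G`;
for graphs with at least one edge it is the value of the level program `Lev r (thetaBar G)`. -/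
theorem result (r : ℕ) (hr : 1 ≤ r) :
    (∀ (V : Type) [Finite V] [Nonempty V] (G : SimpleGraph V), (∃ v w, G.Adj v w) →
      thetaBar (genMyc r G) = sInf (Lev r (thetaBar G))) ∧
    ∃ g : ℝ → ℝ, ∀ (V : Type) [Finite V] [Nonempty V] (G : SimpleGraph V),
      thetaBar (genMyc r G) = g (thetaBar G) := by
  classical
  have h1 : ∀ (V : Type) [Finite V] [Nonempty V] (G : SimpleGraph V), (∃ v w, G.Adj v w) →
      thetaBar (genMyc r G) = sInf (Lev r (thetaBar G)) := by
    rintro V _ _ G ⟨v, w, h⟩
    rw [thetaBar_eq, thetaBar_eq, main h hr]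
  refine ⟨h1, fun s => if s < 2 then 1 else sInf (Lev r s), fun V _ _ G => ?_⟩
  by_cases hE : ∃ v w, G.Adj v w
  · rw [h1 V G hE]
    obtain ⟨v, w, h⟩ := hE
    have := two_le h
    rw [← thetaBar_eq] at this
    simp only [if_neg (not_lt.2 this)]
  · push Not at hE
    rw [thetaBar_eq, thetaBar_eq, edgeless hE, edgeless]
    · norm_num
    · rintro x y ⟨-, p, q, -, -, h, -⟩
      exact hE _ _ h

end Pool.Agent.Results.MP_8a180b_co.DeterminedByTheta
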